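import Pool.Agent.Helper30.FT.Mom1
import Pool.Agent.Helper76.FT.GoalsG

/-! # Packet FT-MOM: momentum and energy -/

set_option autoImplicit false

namespace Pool.Agent.Helper30.FT

open Complex Metric Set Filter Topology MeasureTheory Interval
open Pool.Agent.Helper76.FT

section abstract

variable {κ : ℂ → ℂ → ℂ} {U : Set (ℂ × ℂ)} {M : ℝ}

theorem clm_prod_apply (Λ : ℂ × ℂ →L[ℂ] ℂ) (a b : ℂ) : Λ (a, b) = a * Λ (1, 0) + b * Λ (0, 1) := by
  have : ((a, b) : ℂ × ℂ) = a • ((1, 0) : ℂ × ℂ) + b • ((0, 1) : ℂ × ℂ) := by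
    simp
  rw [this, map_add, map_smul, map_smul]
  simp

/-- partial derivatives along the path -/
noncomputable def k1 (κ : ℂ → ℂ → ℂ) (x : ℂ × ℂ × ℂ) (s : ℝ) : ℂ :=
  fderiv ℂ (fun z : ℂ × ℂ => κ z.1 z.2) (Pi3 s x) (1, 0)

noncomputable def k2 (κ : ℂ → ℂ → ℂ) (x : ℂ × ℂ × ℂ) (s : ℝ) : ℂ :=
  fderiv ℂ (fun z : ℂ × ℂ => κ z.1 z.2) (Pi3 s x) (0, 1)

noncomputable def k0 (κ : ℂ → ℂ → ℂ) (x : ℂ × ℂ × ℂ) (s : ℝ) : ℂ := κ (Pi3 s x).1 (Pi3 s x).2

theorem continuous_Pi3' (x : ℂ × ℂ × ℂ) : Continuous (fun s : ℝ => Pi3 s x) :=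
  continuous_Pi3.comp (by fun_prop : Continuous (fun s : ℝ => (s, x)))

theorem continuousOn_k (hU : IsOpen U) (hκ : DifferentiableOn ℂ (fun z : ℂ × ℂ => κ z.1 z.2) U)
    {x : ℂ × ℂ × ℂ} (hx : ∀ s ∈ Icc (0:ℝ) 1, Pi3 s x ∈ U) :
    ContinuousOn (k0 κ x) (Icc 0 1) ∧ ContinuousOn (k1 κ x) (Icc 0 1) ∧
      ContinuousOn (k2 κ x) (Icc 0 1) := by
  have hP : ∀ s, ContinuousAt (fun s : ℝ => Pi3 s x) s := fun s => (continuous_Pi3' x).continuousAt
  have h1 : ∀ s ∈ Icc (0:ℝ) 1,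
      ContinuousAt (fun s : ℝ => fderiv ℂ (fun z : ℂ × ℂ => κ z.1 z.2) (Pi3 s x)) s := fun s hs =>
    ContinuousAt.comp (f := fun s : ℝ => Pi3 s x) (continuousAt_fderiv hU hκ (hx s hs)) (hP s)
  refine ⟨fun s hs => ?_, fun s hs => ?_, fun s hs => ?_⟩
  · apply ContinuousAt.continuousWithinAt
    have h2 : ContinuousAt (fun z : ℂ × ℂ => κ z.1 z.2) (Pi3 s x) :=
      hκ.continuousOn.continuousAt (hU.mem_nhds (hx s hs))
    exact ContinuousAt.comp (f := fun s : ℝ => Pi3 s x) h2 (hP s)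
  · exact ((h1 s hs).clm_apply continuousAt_const).continuousWithinAt
  · exact ((h1 s hs).clm_apply continuousAt_const).continuousWithinAt

/-- derivative of `J3` in a direction -/
theorem J3_fderiv (hU : IsOpen U) (hκ : DifferentiableOn ℂ (fun z : ℂ × ℂ => κ z.1 z.2) U)
    (hM : ∀ z ∈ U, ‖κ z.1 z.2‖ ≤ M) {φ : ℝ → ℂ} (hφ : Continuous φ)
    (hφ1 : ∀ s ∈ Icc (0:ℝ) 1, ‖φ s‖ ≤ 1) {x : ℂ × ℂ × ℂ}
    (hx : ∀ s ∈ Icc (0:ℝ) 1, Pi3 s x ∈ U) :
    ∃ D : (ℂ × ℂ × ℂ) →L[ℂ] ℂ, HasFDerivAt (J3 κ φ) D x ∧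
      ∀ v, D v = ∫ s in (0:ℝ)..1, φ s * ((v.2.1 - (s * x.2.2 * v.1 + x.1 * s * v.2.2)) * k1 κ x s +
        (s * v.2.2) * k2 κ x s) := by
  obtain ⟨hc, hD⟩ := J3_hasFDerivAt hU hκ hM hφ hφ1 hx
  refine ⟨_, hD, fun v => ?_⟩
  have hI : uIcc (0:ℝ) 1 = Icc 0 1 := uIcc_of_le zero_le_one
  rw [ContinuousLinearMap.intervalIntegral_apply (by
    refine ContinuousOn.intervalIntegrable ?_
    rw [hI]
    exact hc)]
  refine intervalIntegral.integral_congr (fun s _ => ?_)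
  simp only [smul_apply, ContinuousLinearMap.comp_apply, L3_apply, smul_eq_mul]
  rw [clm_prod_apply]
  rfl

theorem ftc1 (hU : IsOpen U) (hκ : DifferentiableOn ℂ (fun z : ℂ × ℂ => κ z.1 z.2) U)
    {x : ℂ × ℂ × ℂ} (hx : ∀ s ∈ Icc (0:ℝ) 1, Pi3 s x ∈ U) :
    ∫ s in (0:ℝ)..1, (k0 κ x s + s * (-(x.1 * x.2.2) * k1 κ x s + x.2.2 * k2 κ x s)) =
      k0 κ x 1 := by
  have hI : uIcc (0:ℝ) 1 = Icc 0 1 := uIcc_of_le zero_le_one
  obtain ⟨c0, c1, c2⟩ := continuousOn_k hU hκ hx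
  rw [intervalIntegral.integral_eq_sub_of_hasDerivAt (f := fun s : ℝ => (s : ℂ) * k0 κ x s)]
  · simp
  · intro s hs
    rw [hI] at hs
    have h1 := hasDerivAt_path hU hκ (hx s hs)
    have h3 : HasDerivAt (fun s : ℝ => (s : ℂ)) 1 s := Complex.ofRealCLM.hasDerivAt
    rw [clm_prod_apply] at h1
    have h2 := h3.mul h1
    rw [one_mul] at h2
    exact h2
  · refine ContinuousOn.intervalIntegrable ?_
    rw [hI]
    fun_prop

theorem ftc2 (hU : IsOpen U) (hκ : DifferentiableOn ℂ (fun z : ℂ × ℂ => κ z.1 z.2) U)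
    {x : ℂ × ℂ × ℂ} (hx : ∀ s ∈ Icc (0:ℝ) 1, Pi3 s x ∈ U) :
    ∫ s in (0:ℝ)..1, (2 * s * k0 κ x s +
      s ^ 2 * (-(x.1 * x.2.2) * k1 κ x s + x.2.2 * k2 κ x s)) = k0 κ x 1 := by
  have hI : uIcc (0:ℝ) 1 = Icc 0 1 := uIcc_of_le zero_le_one
  obtain ⟨c0, c1, c2⟩ := continuousOn_k hU hκ hx
  rw [intervalIntegral.integral_eq_sub_of_hasDerivAt (f := fun s : ℝ => (s : ℂ) ^ 2 * k0 κ x s)]
  · simp
  · intro s hs
    rw [hI] at hs
    have h1 := hasDerivAt_path hU hκ (hx s hs)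
    have h3 : HasDerivAt (fun s : ℝ => (s : ℂ)) 1 s := Complex.ofRealCLM.hasDerivAt
    rw [clm_prod_apply] at h1
    have h2 := (h3.pow 2).mul h1
    refine h2.congr_deriv ?_
    simp [k0, k1, k2]
  · refine ContinuousOn.intervalIntegrable ?_
    rw [hI]
    fun_prop

/-- momentum -/
noncomputable def P3 (κ : ℂ → ℂ → ℂ) (x : ℂ × ℂ × ℂ) : ℂ := x.2.2 * J3 κ (fun _ => 1) x

/-- energy -/
noncomputable def E3 (κ : ℂ → ℂ → ℂ) (x : ℂ × ℂ × ℂ) : ℂ := x.2.2 ^ 2 * J3 κ (fun s => (s : ℂ)) x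

theorem P3_E3_main (hU : IsOpen U) (hκ : DifferentiableOn ℂ (fun z : ℂ × ℂ => κ z.1 z.2) U)
    (hM : ∀ z ∈ U, ‖κ z.1 z.2‖ ≤ M) {t q w : ℂ}
    (hx : ∀ s ∈ Icc (0:ℝ) 1, Pi3 s (t, q, w) ∈ U) :
    DifferentiableAt ℂ (P3 κ) (t, q, w) ∧ DifferentiableAt ℂ (E3 κ) (t, q, w) ∧
    HasDerivAt (fun w' => P3 κ (t, q, w')) (κ (q - t * w) w) w ∧
    HasDerivAt (fun w' => E3 κ (t, q, w')) (w * κ (q - t * w) w) w ∧
    HasDerivAt (fun t' => P3 κ (t', q, w)) (-deriv (fun q' => E3 κ (t, q', w)) q) t := by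
  have hI : uIcc (0:ℝ) 1 = Icc 0 1 := uIcc_of_le zero_le_one
  obtain ⟨c0, c1, c2⟩ := continuousOn_k hU hκ hx
  have c0' : ContinuousOn (k0 κ (t, q, w)) (uIcc 0 1) := by rw [hI]; exact c0
  have c1' : ContinuousOn (k1 κ (t, q, w)) (uIcc 0 1) := by rw [hI]; exact c1
  have c2' : ContinuousOn (k2 κ (t, q, w)) (uIcc 0 1) := by rw [hI]; exact c2
  obtain ⟨D, hD, hDv⟩ := J3_fderiv hU hκ hM (φ := fun _ => 1) continuous_const
    (fun s _ => by simp) hx
  obtain ⟨D2, hD2, hD2v⟩ := J3_fderiv hU hκ hM (φ := fun s => (s : ℂ)) Complex.continuous_ofReal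
    (fun s hs => by simpa [abs_of_nonneg hs.1] using hs.2) hx
  have hsnd : DifferentiableAt ℂ (fun x : ℂ × ℂ × ℂ => x.2.2) (t, q, w) := by fun_prop
  have cw : HasDerivAt (fun w' : ℂ => ((t, q, w') : ℂ × ℂ × ℂ)) (0, 0, 1) w :=
    (hasDerivAt_const w t).prodMk ((hasDerivAt_const w q).prodMk (hasDerivAt_id w))
  have cq : HasDerivAt (fun q' : ℂ => ((t, q', w) : ℂ × ℂ × ℂ)) (0, 1, 0) q :=
    (hasDerivAt_const q t).prodMk ((hasDerivAt_id q).prodMk (hasDerivAt_const q w))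
  have ct : HasDerivAt (fun t' : ℂ => ((t', q, w) : ℂ × ℂ × ℂ)) (1, 0, 0) t :=
    (hasDerivAt_id t).prodMk ((hasDerivAt_const t q).prodMk (hasDerivAt_const t w))
  refine ⟨hsnd.mul hD.differentiableAt, (hsnd.pow 2).mul hD2.differentiableAt, ?_, ?_, ?_⟩
  · have h1 : HasDerivAt (fun w' => J3 κ (fun _ => 1) (t, q, w')) (D (0, 0, 1)) w :=
      HasFDerivAt.comp_hasDerivAt (l := J3 κ (fun _ => 1)) (f := fun w' => (t, q, w')) w hD cw
    have h2 := (hasDerivAt_id w).mul h1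
    refine h2.congr_deriv ?_
    have h3 := ftc1 hU hκ hx
    have h4 : k0 κ (t, q, w) 1 = κ (q - t * w) w := by simp [k0, Pi3]
    rw [← h4, ← h3, hDv]
    simp only [id, one_mul, J3, k0]
    rw [← intervalIntegral.integral_const_mul, ← intervalIntegral.integral_add]
    · refine intervalIntegral.integral_congr (fun s _ => ?_)
      ring
    · exact (c0'.intervalIntegrable : IntervalIntegrable (k0 κ (t, q, w)) volume 0 1)
    · refine ContinuousOn.intervalIntegrable ?_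
      fun_prop
  · have h1 : HasDerivAt (fun w' => J3 κ (fun s => (s : ℂ)) (t, q, w')) (D2 (0, 0, 1)) w :=
      HasFDerivAt.comp_hasDerivAt (l := J3 κ (fun s => (s : ℂ))) (f := fun w' => (t, q, w')) w hD2 cw
    have h2 := ((hasDerivAt_id w).pow 2).mul h1
    refine h2.congr_deriv ?_
    have h3 := ftc2 hU hκ hx
    have h4 : k0 κ (t, q, w) 1 = κ (q - t * w) w := by simp [k0, Pi3]
    rw [← h4, ← h3, hD2v]
    simp only [id, J3]
    change (((2 : ℕ) : ℂ) * w ^ (2 - 1) * 1) * (∫ s in (0:ℝ)..1, (s : ℂ) * k0 κ (t, q, w) s) +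
      w ^ 2 * _ = _
    rw [← intervalIntegral.integral_const_mul, ← intervalIntegral.integral_const_mul,
      ← intervalIntegral.integral_const_mul, ← intervalIntegral.integral_add]
    · refine intervalIntegral.integral_congr (fun s _ => ?_)
      push_cast
      ring
    · refine ContinuousOn.intervalIntegrable ?_
      fun_prop
    · refine ContinuousOn.intervalIntegrable ?_
      fun_prop
  · have h1 : HasDerivAt (fun q' => J3 κ (fun s => (s : ℂ)) (t, q', w)) (D2 (0, 1, 0)) q :=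
      HasFDerivAt.comp_hasDerivAt (l := J3 κ (fun s => (s : ℂ))) (f := fun q' => (t, q', w)) q hD2 cq
    have h2 : HasDerivAt (fun q' => E3 κ (t, q', w)) (w ^ 2 * D2 (0, 1, 0)) q :=
      show HasDerivAt (fun q' => w ^ 2 * J3 κ (fun s => (s : ℂ)) (t, q', w)) (w ^ 2 * D2 (0, 1, 0)) q
        from h1.const_mul _
    rw [h2.deriv]
    have h3 : HasDerivAt (fun t' => J3 κ (fun _ => 1) (t', q, w)) (D (1, 0, 0)) t :=
      HasFDerivAt.comp_hasDerivAt (l := J3 κ (fun _ => 1)) (f := fun t' => (t', q, w)) t hD ct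
    refine (h3.const_mul w).congr_deriv ?_
    rw [hDv, hD2v, ← neg_mul, ← intervalIntegral.integral_const_mul,
      ← intervalIntegral.integral_const_mul]
    refine intervalIntegral.integral_congr (fun s _ => ?_)
    simp only
    ring

end abstract

theorem Sys_p_eq (S : Sys) (t : ℝ) (q w : ℂ) : S.p t q w = P3 S.κ ((t : ℂ), q, w) := by
  simp [Sys.p, P3, J3, Pi3]

theorem Sys_En_eq (S : Sys) (t : ℝ) (q w : ℂ) : S.En t q w = E3 S.κ ((t : ℂ), q, w) := by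
  simp [Sys.En, E3, J3, Pi3]

theorem ft_mom (hReg : GReg) : GMom := by
  intro S hS
  obtain ⟨_, _, _, _, ⟨Mv, hMv⟩, hopen, _⟩ := hReg S hS
  obtain ⟨Mκ, hMκ⟩ := hS.κbd
  obtain ⟨k0, hk0, hk0'⟩ := hS.κpos
  have hU : IsOpen (S.Nb 0 S.R) := hopen 0 S.R
  have hpath : ∀ t ∈ Icc (0:ℝ) 1, ∀ z ∈ S.Nb t S.r, ∀ s ∈ Icc (0:ℝ) 1,
      Pi3 s ((t : ℂ), z.1, z.2) ∈ S.Nb 0 S.R := fun t ht z hz s hs => hS.path t ht z hz s hs
  have hmain := fun t (ht : t ∈ Icc (0:ℝ) 1) z (hz : z ∈ S.Nb t S.r) =>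
    P3_E3_main hU hS.κhol hMκ (hpath t ht z hz)
  have h11 : (1 : ℝ) ∈ Icc (0:ℝ) 1 := by simp
  have hend : ∀ t ∈ Icc (0:ℝ) 1, ∀ z ∈ S.Nb t S.r, (z.1 - t * z.2, z.2) ∈ S.Nb 0 S.R := by
    intro t ht z hz
    have := hS.path t ht z hz 1 h11
    simpa using this
  have hw : ∀ t ∈ Icc (0:ℝ) 1, ∀ z ∈ S.Nb t S.r, ‖z.2‖ ≤ |Mv| + S.r := by
    rintro t ht z ⟨y, hy, _, hy2⟩
    have h1 := hMv t ht y hy
    calc ‖z.2‖ = ‖(z.2 - (y.2 : ℂ)) + (y.2 : ℂ)‖ := by rw [sub_add_cancel]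
      _ ≤ ‖z.2 - (y.2 : ℂ)‖ + ‖(y.2 : ℂ)‖ := norm_add_le _ _
      _ ≤ S.r + |y.2| := by
        rw [Complex.norm_real, Real.norm_eq_abs]
        linarith
      _ ≤ |Mv| + S.r := by
        have := le_abs_self Mv
        linarith
  have hr := hS.hr
  have hIoc : Ι (0:ℝ) 1 = Ioc 0 1 := uIoc_of_le zero_le_one
  have hI : uIcc (0:ℝ) 1 = Icc 0 1 := uIcc_of_le zero_le_one
  have hBp : ∀ t ∈ Icc (0:ℝ) 1, ∀ z ∈ S.Nb t S.r, ‖S.p t z.1 z.2‖ ≤ (|Mv| + S.r) * |Mκ| := by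
    intro t ht z hz
    unfold Sys.p
    rw [norm_mul]
    refine mul_le_mul (hw t ht z hz) ?_ (norm_nonneg _) (by positivity)
    refine (intervalIntegral.norm_integral_le_of_norm_le_const (C := |Mκ|) (fun s hs => ?_)).trans
      (by simp)
    rw [hIoc] at hs
    exact (hMκ _ (hS.path t ht z hz s (Ioc_subset_Icc_self hs))).trans (le_abs_self _)
  have hBE : ∀ t ∈ Icc (0:ℝ) 1, ∀ z ∈ S.Nb t S.r, ‖S.En t z.1 z.2‖ ≤ (|Mv| + S.r) ^ 2 * |Mκ| := by
    intro t ht z hz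
    unfold Sys.En
    rw [norm_mul, norm_pow]
    refine mul_le_mul (pow_le_pow_left₀ (norm_nonneg _) (hw t ht z hz) 2) ?_ (norm_nonneg _)
      (by positivity)
    refine (intervalIntegral.norm_integral_le_of_norm_le_const (C := |Mκ|) (fun s hs => ?_)).trans
      (by simp)
    rw [hIoc] at hs
    have hs' := Ioc_subset_Icc_self hs
    rw [norm_mul]
    have h1 : ‖(s : ℂ)‖ ≤ 1 := by
      rw [Complex.norm_real, Real.norm_eq_abs, abs_of_nonneg hs'.1]
      exact hs'.2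
    calc ‖(s : ℂ)‖ * ‖S.κ (z.1 - t * s * z.2) (s * z.2)‖ ≤ 1 * |Mκ| :=
          mul_le_mul h1 ((hMκ _ (hS.path t ht z hz s hs')).trans (le_abs_self _)) (norm_nonneg _)
            zero_le_one
      _ = |Mκ| := one_mul _
  refine ⟨k0, 1 + |Mκ| + (|Mv| + S.r) * |Mκ| + (|Mv| + S.r) ^ 2 * |Mκ|, hk0, by positivity,
    ?_, ?_, ?_⟩
  · rintro y ⟨hy1, hy2⟩
    apply ContinuousAt.continuousWithinAt
    have h1 := (hmain y.1 hy1 y.2 hy2).1.continuousAt
    have h2 : ContinuousAt (fun y : ℝ × (ℂ × ℂ) => (((y.1 : ℂ), y.2.1, y.2.2) : ℂ × ℂ × ℂ)) y := by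
      fun_prop
    have h3 := ContinuousAt.comp (f := fun y : ℝ × (ℂ × ℂ) =>
      (((y.1 : ℂ), y.2.1, y.2.2) : ℂ × ℂ × ℂ)) h1 h2
    refine h3.congr (Eventually.of_forall (fun y => ?_))
    exact (Sys_p_eq S y.1 y.2.1 y.2.2).symm
  · rintro y ⟨hy1, hy2⟩
    apply ContinuousAt.continuousWithinAt
    have h1 := (hmain y.1 hy1 y.2 hy2).2.1.continuousAt
    have h2 : ContinuousAt (fun y : ℝ × (ℂ × ℂ) => (((y.1 : ℂ), y.2.1, y.2.2) : ℂ × ℂ × ℂ)) y := by
      fun_prop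
    have h3 := ContinuousAt.comp (f := fun y : ℝ × (ℂ × ℂ) =>
      (((y.1 : ℂ), y.2.1, y.2.2) : ℂ × ℂ × ℂ)) h1 h2
    refine h3.congr (Eventually.of_forall (fun y => ?_))
    exact (Sys_En_eq S y.1 y.2.1 y.2.2).symm
  · intro t ht
    refine ⟨fun z hz => ?_, fun z hz => ?_, fun z hz => ?_⟩
    · have h1 := (hmain t ht z hz).1
      have h2 : DifferentiableAt ℂ (fun z : ℂ × ℂ => (((t : ℂ), z.1, z.2) : ℂ × ℂ × ℂ)) z := by
        fun_prop
      have h3 := DifferentiableAt.comp (f := fun z : ℂ × ℂ => (((t : ℂ), z.1, z.2) : ℂ × ℂ × ℂ))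
        z h1 h2
      refine (h3.congr_of_eventuallyEq (Eventually.of_forall (fun y => ?_))).differentiableWithinAt
      exact Sys_p_eq S t y.1 y.2
    · have h1 := (hmain t ht z hz).2.1
      have h2 : DifferentiableAt ℂ (fun z : ℂ × ℂ => (((t : ℂ), z.1, z.2) : ℂ × ℂ × ℂ)) z := by
        fun_prop
      have h3 := DifferentiableAt.comp (f := fun z : ℂ × ℂ => (((t : ℂ), z.1, z.2) : ℂ × ℂ × ℂ))
        z h1 h2
      refine (h3.congr_of_eventuallyEq (Eventually.of_forall (fun y => ?_))).differentiableWithinAt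
      exact Sys_En_eq S t y.1 y.2
    · obtain ⟨_, _, h1, h2, h3⟩ := hmain t ht z hz
      have hκ1 := hMκ _ (hend t ht z hz)
      have hA : 0 ≤ (|Mv| + S.r) * |Mκ| := by positivity
      have hB : 0 ≤ (|Mv| + S.r) ^ 2 * |Mκ| := by positivity
      have hC : Mκ ≤ |Mκ| := le_abs_self _
      have hC0 : 0 ≤ |Mκ| := abs_nonneg _
      refine ⟨?_, ?_, ?_, hk0' _ (hend t ht z hz), by simp only at hκ1; linarith,
        by linarith [hBp t ht z hz], by linarith [hBE t ht z hz], ?_, ?_, ?_, ?_⟩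
      · refine h1.congr_of_eventuallyEq (Eventually.of_forall (fun w' => ?_))
        exact Sys_p_eq S t z.1 w'
      · refine h2.congr_of_eventuallyEq (Eventually.of_forall (fun w' => ?_))
        exact Sys_En_eq S t z.1 w'
      · have h4 : HasDerivAt (fun t' : ℝ => P3 S.κ ((t' : ℂ), z.1, z.2))
            (-deriv (fun q' => E3 S.κ ((t : ℂ), q', z.2)) z.1) t := h3.comp_ofReal
        have h5 : (fun q => S.En t q z.2) = (fun q' => E3 S.κ ((t : ℂ), q', z.2)) := by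
          funext q'
          exact Sys_En_eq S t q' z.2
        rw [h5]
        refine (h4.congr_of_eventuallyEq (Eventually.of_forall (fun t' => ?_))).hasDerivWithinAt
        exact Sys_p_eq S t' z.1 z.2
      · unfold Sys.p
        congr 1
        refine intervalIntegral.integral_congr (fun s hs => ?_)
        rw [hI] at hs
        have := hS.κper _ (hS.path t ht z hz s hs)
        simp only at this ⊢
        rw [← this]
        congr 1
        ring
      · unfold Sys.En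
        congr 1
        refine intervalIntegral.integral_congr (fun s hs => ?_)
        rw [hI] at hs
        have := hS.κper _ (hS.path t ht z hz s hs)
        simp only at this ⊢
        rw [← this]
        congr 2
        ring
      · unfold Sys.p
        rw [map_mul, intervalIntegral.integral_of_le zero_le_one,
          intervalIntegral.integral_of_le zero_le_one, ← integral_conj]
        congr 1
        refine setIntegral_congr_fun measurableSet_Ioc (fun s hs => ?_)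
        have := hS.κsym _ (hS.path t ht z hz s (Ioc_subset_Icc_self hs))
        simp only at this ⊢
        rw [← this]
        simp
      · unfold Sys.En
        rw [map_mul, map_pow, intervalIntegral.integral_of_le zero_le_one,
          intervalIntegral.integral_of_le zero_le_one, ← integral_conj]
        congr 1
        refine setIntegral_congr_fun measurableSet_Ioc (fun s hs => ?_)
        have := hS.κsym _ (hS.path t ht z hz s (Ioc_subset_Icc_self hs))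
        simp only at this ⊢
        rw [map_mul, ← this]
        simp

end Pool.Agent.Helper30.FT
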