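import Mathlib

/-! # Holomorphic functions on normed spaces: Cauchy estimate, continuity of the derivative -/

set_option autoImplicit false

namespace Pool.Agent.Helper30.FT

open Complex Metric Set Filter Topology

section

variable {E F : Type*} [NormedAddCommGroup E] [NormedSpace ℂ E] [NormedAddCommGroup F]
  [NormedSpace ℂ F]

/-- Cauchy estimate -/
theorem norm_fderiv_le_of_bound {f : E → F} {x : E} {ρ M : ℝ} (hρ : 0 < ρ)
    (hf : DifferentiableOn ℂ f (ball x ρ)) (hM : ∀ y ∈ ball x ρ, ‖f y‖ ≤ M) :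
    ‖fderiv ℂ f x‖ ≤ 2 * M / ρ := by
  refine norm_fderiv_le_div_of_mapsTo_ball hf (fun y hy => ?_) hρ
  rw [mem_closedBall, dist_eq_norm]
  have h1 := hM y hy
  have h2 := hM x (mem_ball_self hρ)
  calc ‖f y - f x‖ ≤ ‖f y‖ + ‖f x‖ := norm_sub_le _ _
    _ ≤ 2 * M := by linarith

/-- a holomorphic function is locally bounded -/
theorem exists_ball_bound {f : E → F} {U : Set E} (hU : IsOpen U) (hf : DifferentiableOn ℂ f U)
    {x : E} (hx : x ∈ U) : ∃ ρ M : ℝ, 0 < ρ ∧ 0 < M ∧ ball x ρ ⊆ U ∧ ∀ y ∈ ball x ρ, ‖f y‖ ≤ M := by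
  have hc : ContinuousAt f x := (hf.continuousOn).continuousAt (hU.mem_nhds hx)
  have h1 : ∀ᶠ y in 𝓝 x, ‖f y‖ < ‖f x‖ + 1 :=
    (hc.norm).eventually (gt_mem_nhds (by linarith : ‖f x‖ < ‖f x‖ + 1))
  obtain ⟨ρ, hρ, hb⟩ := Metric.eventually_nhds_iff_ball.mp (h1.and (hU.mem_nhds hx))
  refine ⟨ρ, ‖f x‖ + 1, hρ, by positivity, fun y hy => (hb y hy).2, fun y hy => (hb y hy).1.le⟩

/-- Lipschitz estimate -/
theorem norm_sub_le_of_bound {f : E → F} {x : E} {ρ M : ℝ} (hρ : 0 < ρ)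
    (hf : DifferentiableOn ℂ f (ball x (2 * ρ))) (hM : ∀ y ∈ ball x (2 * ρ), ‖f y‖ ≤ M)
    {y z : E} (hy : y ∈ ball x ρ) (hz : z ∈ ball x ρ) : ‖f y - f z‖ ≤ 2 * M / ρ * ‖y - z‖ := by
  have hsub : ∀ u ∈ ball x ρ, ball u ρ ⊆ ball x (2 * ρ) := fun u hu v hv => by
    rw [mem_ball] at *
    calc dist v x ≤ dist v u + dist u x := dist_triangle _ _ _
      _ < 2 * ρ := by linarith
  refine Convex.norm_image_sub_le_of_norm_fderiv_le (𝕜 := ℂ) (s := ball x ρ)
    (fun u hu => ?_) (fun u hu => ?_) (convex_ball x ρ) hz hy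
  · exact (hf.mono (hsub u hu)).differentiableAt (ball_mem_nhds u hρ)
  · exact norm_fderiv_le_of_bound hρ (hf.mono (hsub u hu)) (fun v hv => hM v (hsub u hu hv))

/-- the derivative of a holomorphic function is continuous -/
theorem continuousAt_fderiv {f : E → F} {U : Set E} (hU : IsOpen U) (hf : DifferentiableOn ℂ f U)
    {x : E} (hx : x ∈ U) : ContinuousAt (fderiv ℂ f) x := by
  obtain ⟨ρ', M, hρ', hM0, hsub, hM⟩ := exists_ball_bound hU hf hx
  obtain ⟨ρ, hρ, rfl⟩ : ∃ ρ : ℝ, 0 < ρ ∧ ρ' = 2 * (2 * ρ) := ⟨ρ' / 4, by positivity, by ring⟩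
  have hlip : ∀ y ∈ ball x (2 * ρ), ∀ z ∈ ball x (2 * ρ), ‖f y - f z‖ ≤ 2 * M / (2 * ρ) * ‖y - z‖ :=
    fun y hy z hz => norm_sub_le_of_bound (by positivity) (hf.mono hsub) hM hy hz
  have hkey : ∀ y ∈ ball x ρ, ‖fderiv ℂ f y - fderiv ℂ f x‖ ≤
      2 * (2 * M / (2 * ρ) * ‖y - x‖) / ρ := by
    intro y hy
    have hin : ∀ u ∈ ball (0 : E) ρ, y + u ∈ ball x (2 * ρ) ∧ x + u ∈ ball x (2 * ρ) := by
      intro u hu
      rw [mem_ball_zero_iff] at hu
      rw [mem_ball, dist_eq_norm] at hy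
      constructor
      · rw [mem_ball, dist_eq_norm]
        calc ‖y + u - x‖ = ‖(y - x) + u‖ := by congr 1; abel
          _ ≤ ‖y - x‖ + ‖u‖ := norm_add_le _ _
          _ < 2 * ρ := by linarith
      · rw [mem_ball, dist_eq_norm, add_sub_cancel_left]
        linarith
    have hd1 : ∀ u ∈ ball (0 : E) ρ, DifferentiableAt ℂ (fun u => f (y + u)) u := by
      intro u hu
      have h1 : DifferentiableAt ℂ f (y + u) :=
        (hf.mono hsub).differentiableAt (isOpen_ball.mem_nhds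
          (ball_subset_ball (by linarith) (hin u hu).1))
      exact h1.comp u (by fun_prop)
    have hd2 : ∀ u ∈ ball (0 : E) ρ, DifferentiableAt ℂ (fun u => f (x + u)) u := by
      intro u hu
      have h1 : DifferentiableAt ℂ f (x + u) :=
        (hf.mono hsub).differentiableAt (isOpen_ball.mem_nhds
          (ball_subset_ball (by linarith) (hin u hu).2))
      exact h1.comp u (by fun_prop)
    have h := norm_fderiv_le_of_bound (f := fun u => f (y + u) - f (x + u)) (x := 0) hρ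
      (M := 2 * M / (2 * ρ) * ‖y - x‖)
      (fun u hu => ((hd1 u hu).sub (hd2 u hu)).differentiableWithinAt) (fun u hu => by
        refine (hlip _ (hin u hu).1 _ (hin u hu).2).trans_eq ?_
        congr 2
        abel)
    have h0 := mem_ball_self (x := (0 : E)) hρ
    rw [fderiv_fun_sub (hd1 0 h0) (hd2 0 h0), fderiv_comp_add_left, fderiv_comp_add_left,
      add_zero, add_zero] at h
    exact h
  rw [ContinuousAt, tendsto_iff_norm_sub_tendsto_zero]
  have hlim : Tendsto (fun y : E => 2 * (2 * M / (2 * ρ) * ‖y - x‖) / ρ) (𝓝 x) (𝓝 0) := by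
    have : Continuous (fun y : E => 2 * (2 * M / (2 * ρ) * ‖y - x‖) / ρ) := by fun_prop
    have h := this.tendsto x
    simpa using h
  refine squeeze_zero' (Eventually.of_forall (fun y => norm_nonneg _)) ?_ hlim
  filter_upwards [ball_mem_nhds x hρ] with y hy using hkey y hy

theorem hasStrictFDerivAt_of_holo {f : E → F} {U : Set E} (hU : IsOpen U)
    (hf : DifferentiableOn ℂ f U) {x : E} (hx : x ∈ U) :
    HasStrictFDerivAt f (fderiv ℂ f x) x :=
  hasStrictFDerivAt_of_hasFDerivAt_of_continuousAt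
    (by filter_upwards [hU.mem_nhds hx] with y hy
        exact (hf.differentiableAt (hU.mem_nhds hy)).hasFDerivAt)
    (continuousAt_fderiv hU hf hx)

end

end Pool.Agent.Helper30.FT
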