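import Pool.Agent.Helper30.FT.Holo

/-! # Parametric integrals of a holomorphic function along the paths `(q - t s w, s w)` -/

set_option autoImplicit false

namespace Pool.Agent.Helper30.FT

open Complex Metric Set Filter Topology MeasureTheory Interval

/-- the path -/
noncomputable def Pi3 (s : ℝ) (x : ℂ × ℂ × ℂ) : ℂ × ℂ := (x.2.1 - x.1 * s * x.2.2, s * x.2.2)

/-- its derivative -/
noncomputable def L3 (s : ℝ) (x : ℂ × ℂ × ℂ) : (ℂ × ℂ × ℂ) →L[ℂ] ℂ × ℂ :=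
  (ContinuousLinearMap.inl ℂ ℂ ℂ).comp
   (((ContinuousLinearMap.fst ℂ ℂ ℂ).comp (ContinuousLinearMap.snd ℂ ℂ (ℂ × ℂ))) -
      (((s : ℂ) * x.2.2) • (ContinuousLinearMap.fst ℂ ℂ (ℂ × ℂ)) +
      (x.1 * (s : ℂ)) • ((ContinuousLinearMap.snd ℂ ℂ ℂ).comp (ContinuousLinearMap.snd ℂ ℂ (ℂ × ℂ)))))
  + (ContinuousLinearMap.inr ℂ ℂ ℂ).comp
   ((s : ℂ) • ((ContinuousLinearMap.snd ℂ ℂ ℂ).comp (ContinuousLinearMap.snd ℂ ℂ (ℂ × ℂ))))

theorem L3_apply (s : ℝ) (x v : ℂ × ℂ × ℂ) :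
    L3 s x v = (v.2.1 - (s * x.2.2 * v.1 + x.1 * s * v.2.2), s * v.2.2) := by
  simp [L3]

theorem hasFDerivAt_Pi3 (s : ℝ) (x : ℂ × ℂ × ℂ) : HasFDerivAt (Pi3 s) (L3 s x) x := by
  unfold Pi3
  have h1 : HasFDerivAt (fun x : ℂ × ℂ × ℂ => x.1) (ContinuousLinearMap.fst ℂ ℂ (ℂ × ℂ)) x :=
    hasFDerivAt_fst
  have h2 : HasFDerivAt (fun x : ℂ × ℂ × ℂ => x.2) (ContinuousLinearMap.snd ℂ ℂ (ℂ × ℂ)) x :=
    hasFDerivAt_snd
  have h3 : HasFDerivAt (fun x : ℂ × ℂ × ℂ => x.2.1)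
    ((ContinuousLinearMap.fst ℂ ℂ ℂ).comp (ContinuousLinearMap.snd ℂ ℂ (ℂ × ℂ))) x :=
    (hasFDerivAt_fst (𝕜 := ℂ) (p := x.2)).comp x h2
  have h4 : HasFDerivAt (fun x : ℂ × ℂ × ℂ => x.2.2)
    ((ContinuousLinearMap.snd ℂ ℂ ℂ).comp (ContinuousLinearMap.snd ℂ ℂ (ℂ × ℂ))) x :=
    (hasFDerivAt_snd (𝕜 := ℂ) (p := x.2)).comp x h2
  refine ((h3.sub ((h1.mul_const (s : ℂ)).mul h4)).prodMk (h4.const_mul (s : ℂ))).congr_fderiv ?_
  refine ContinuousLinearMap.ext (fun v => ?_)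
  rw [L3_apply]
  simp
  ring

theorem continuous_Pi3 : Continuous (fun y : ℝ × (ℂ × ℂ × ℂ) => Pi3 y.1 y.2) := by
  unfold Pi3
  fun_prop

theorem continuous_L3 (x : ℂ × ℂ × ℂ) : Continuous (fun s : ℝ => L3 s x) := by
  unfold L3
  fun_prop

section

variable {κ : ℂ → ℂ → ℂ} {U : Set (ℂ × ℂ)} {M : ℝ}

/-- tube lemma -/
theorem exists_tube (hU : IsOpen U) {x₀ : ℂ × ℂ × ℂ} (hx : ∀ s ∈ Icc (0:ℝ) 1, Pi3 s x₀ ∈ U) :
    ∃ δ : ℝ, 0 < δ ∧ ∀ s ∈ Icc (0:ℝ) 1, ∀ x ∈ ball x₀ δ, Pi3 s x ∈ U := by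
  have hpre : IsOpen ((fun y : ℝ × (ℂ × ℂ × ℂ) => Pi3 y.1 y.2) ⁻¹' U) := hU.preimage continuous_Pi3
  obtain ⟨u, v, hu, hv, hsu, hxv, huv⟩ := generalized_tube_lemma (s := Icc (0:ℝ) 1)
    (t := {x₀}) isCompact_Icc isCompact_singleton hpre (by
      rintro ⟨s, x⟩ ⟨hs, hx'⟩
      simp only [mem_singleton_iff] at hx'
      subst hx'
      exact hx s hs)
  obtain ⟨δ, hδ, hb⟩ := Metric.isOpen_iff.mp hv x₀ (hxv rfl)
  exact ⟨δ, hδ, fun s hs x hx => huv (show (s, x) ∈ u ×ˢ v from ⟨hsu hs, hb hx⟩)⟩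

/-- the parametric integral -/
noncomputable def J3 (κ : ℂ → ℂ → ℂ) (φ : ℝ → ℂ) (x : ℂ × ℂ × ℂ) : ℂ :=
  ∫ s in (0:ℝ)..1, φ s * κ (Pi3 s x).1 (Pi3 s x).2

theorem J3_hasFDerivAt (hU : IsOpen U) (hκ : DifferentiableOn ℂ (fun z : ℂ × ℂ => κ z.1 z.2) U)
    (hM : ∀ z ∈ U, ‖κ z.1 z.2‖ ≤ M) {φ : ℝ → ℂ} (hφ : Continuous φ)
    (hφ1 : ∀ s ∈ Icc (0:ℝ) 1, ‖φ s‖ ≤ 1) {x₀ : ℂ × ℂ × ℂ}
    (hx : ∀ s ∈ Icc (0:ℝ) 1, Pi3 s x₀ ∈ U) :
    ContinuousOn (fun s : ℝ => φ s • (fderiv ℂ (fun z : ℂ × ℂ => κ z.1 z.2) (Pi3 s x₀)).comp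
      (L3 s x₀)) (Icc 0 1) ∧
    HasFDerivAt (J3 κ φ) (∫ s in (0:ℝ)..1,
      φ s • (fderiv ℂ (fun z : ℂ × ℂ => κ z.1 z.2) (Pi3 s x₀)).comp (L3 s x₀)) x₀ := by
  obtain ⟨δ', hδ', htube⟩ := exists_tube hU hx
  obtain ⟨δ, hδ, rfl⟩ : ∃ δ : ℝ, 0 < δ ∧ δ' = 2 * δ := ⟨δ' / 2, by positivity, by ring⟩
  have hI : uIcc (0:ℝ) 1 = Icc 0 1 := uIcc_of_le zero_le_one
  have hIoc : Ι (0:ℝ) 1 = Ioc 0 1 := uIoc_of_le zero_le_one
  have hM0 : 0 ≤ M := (norm_nonneg _).trans (hM _ (hx 0 (by simp)))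
  -- continuity of the derivative in s
  have hcont : ContinuousOn (fun s : ℝ => φ s •
      (fderiv ℂ (fun z : ℂ × ℂ => κ z.1 z.2) (Pi3 s x₀)).comp (L3 s x₀)) (Icc 0 1) := by
    intro s hs
    apply ContinuousAt.continuousWithinAt
    have hP : ContinuousAt (fun s : ℝ => Pi3 s x₀) s :=
      (continuous_Pi3.comp (by fun_prop : Continuous (fun s : ℝ => (s, x₀)))).continuousAt
    have h1 : ContinuousAt (fun s : ℝ => fderiv ℂ (fun z : ℂ × ℂ => κ z.1 z.2) (Pi3 s x₀)) s :=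
      ContinuousAt.comp (f := fun s : ℝ => Pi3 s x₀) (continuousAt_fderiv hU hκ (hx s hs)) hP
    have h2 : ContinuousAt (fun s : ℝ => L3 s x₀) s := (continuous_L3 x₀).continuousAt
    exact hφ.continuousAt.smul (h1.clm_comp h2)
  -- the integrand, for each parameter in the ball
  have hFcont : ∀ x ∈ ball x₀ (2 * δ), ContinuousOn (fun s : ℝ => φ s * κ (Pi3 s x).1 (Pi3 s x).2)
      (Icc 0 1) := by
    intro x hx' s hs
    apply ContinuousAt.continuousWithinAt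
    have hP : ContinuousAt (fun s : ℝ => Pi3 s x) s :=
      (continuous_Pi3.comp (by fun_prop : Continuous (fun s : ℝ => (s, x)))).continuousAt
    have h1 : ContinuousAt (fun z : ℂ × ℂ => κ z.1 z.2) (Pi3 s x) :=
      hκ.continuousOn.continuousAt (hU.mem_nhds (htube s hs x hx'))
    exact hφ.continuousAt.mul (ContinuousAt.comp (f := fun s : ℝ => Pi3 s x) h1 hP)
  have hdiff : ∀ s ∈ Icc (0:ℝ) 1, ∀ x ∈ ball x₀ (2 * δ),
      HasFDerivAt (fun x => φ s * κ (Pi3 s x).1 (Pi3 s x).2)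
        (φ s • (fderiv ℂ (fun z : ℂ × ℂ => κ z.1 z.2) (Pi3 s x)).comp (L3 s x)) x := by
    intro s hs x hx'
    have h1 : HasFDerivAt (fun z : ℂ × ℂ => κ z.1 z.2)
      (fderiv ℂ (fun z : ℂ × ℂ => κ z.1 z.2) (Pi3 s x)) (Pi3 s x) :=
      (hκ.differentiableAt (hU.mem_nhds (htube s hs x hx'))).hasFDerivAt
    exact (h1.comp x (hasFDerivAt_Pi3 s x)).const_mul (φ s)
  have hbound : ∀ s ∈ Icc (0:ℝ) 1, ∀ x ∈ ball x₀ δ,
      ‖φ s • (fderiv ℂ (fun z : ℂ × ℂ => κ z.1 z.2) (Pi3 s x)).comp (L3 s x)‖ ≤ 2 * M / δ := by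
    intro s hs x hx'
    have hsub : ball x δ ⊆ ball x₀ (2 * δ) := fun v hv => by
      rw [mem_ball] at *
      calc dist v x₀ ≤ dist v x + dist x x₀ := dist_triangle _ _ _
        _ < 2 * δ := by linarith
    rw [← (hdiff s hs x (hsub (mem_ball_self hδ))).fderiv]
    refine norm_fderiv_le_of_bound hδ (fun y hy =>
      (hdiff s hs y (hsub hy)).differentiableAt.differentiableWithinAt) (fun y hy => ?_)
    rw [norm_mul]
    calc ‖φ s‖ * ‖κ (Pi3 s y).1 (Pi3 s y).2‖ ≤ 1 * M :=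
          mul_le_mul (hφ1 s hs) (hM _ (htube s hs y (hsub hy))) (norm_nonneg _) zero_le_one
      _ = M := one_mul M
  refine ⟨hcont, ?_⟩
  refine intervalIntegral.hasFDerivAt_integral_of_dominated_of_fderiv_le
    (s := ball x₀ δ) (bound := fun _ => 2 * M / δ)
    (F' := fun x s => φ s • (fderiv ℂ (fun z : ℂ × ℂ => κ z.1 z.2) (Pi3 s x)).comp (L3 s x))
    (ball_mem_nhds x₀ hδ) ?_ ?_ ?_ ?_ ?_ ?_
  · filter_upwards [ball_mem_nhds x₀ (by positivity : (0:ℝ) < 2 * δ)] with x hx'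
    rw [hIoc]
    exact ((hFcont x hx').mono Ioc_subset_Icc_self).aestronglyMeasurable measurableSet_Ioc
  · refine ContinuousOn.intervalIntegrable ?_
    rw [hI]
    exact hFcont x₀ (mem_ball_self (by positivity))
  · rw [hIoc]
    exact (hcont.mono Ioc_subset_Icc_self).aestronglyMeasurable measurableSet_Ioc
  · refine Eventually.of_forall (fun s hs x hx' => ?_)
    rw [hIoc] at hs
    exact hbound s (Ioc_subset_Icc_self hs) x hx'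
  · exact intervalIntegrable_const
  · refine Eventually.of_forall (fun s hs x hx' => ?_)
    rw [hIoc] at hs
    exact hdiff s (Ioc_subset_Icc_self hs) x (ball_subset_ball (by linarith) hx')

/-- the derivative along the integration variable -/
theorem hasDerivAt_path (hU : IsOpen U) (hκ : DifferentiableOn ℂ (fun z : ℂ × ℂ => κ z.1 z.2) U)
    {x₀ : ℂ × ℂ × ℂ} {s : ℝ} (hx : Pi3 s x₀ ∈ U) :
    HasDerivAt (fun s : ℝ => κ (Pi3 s x₀).1 (Pi3 s x₀).2)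
      (fderiv ℂ (fun z : ℂ × ℂ => κ z.1 z.2) (Pi3 s x₀) (-(x₀.1 * x₀.2.2), x₀.2.2)) s := by
  have h1 : HasFDerivAt (fun z : ℂ × ℂ => κ z.1 z.2)
      (fderiv ℂ (fun z : ℂ × ℂ => κ z.1 z.2) (Pi3 s x₀)) (Pi3 s x₀) :=
      (hκ.differentiableAt (hU.mem_nhds hx)).hasFDerivAt
  have h2 : HasDerivAt (fun s : ℝ => Pi3 s x₀) (-(x₀.1 * x₀.2.2), x₀.2.2) s := by
    unfold Pi3
    have h3 : HasDerivAt (fun s : ℝ => (s : ℂ)) 1 s := Complex.ofRealCLM.hasDerivAt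
    have h4 : HasDerivAt (fun s : ℝ => x₀.2.1 - x₀.1 * s * x₀.2.2) (-(x₀.1 * x₀.2.2)) s := by
      have := ((h3.const_mul x₀.1).mul_const x₀.2.2).const_sub x₀.2.1
      simpa using this
    have h5 : HasDerivAt (fun s : ℝ => (s : ℂ) * x₀.2.2) x₀.2.2 s := by
      simpa using h3.mul_const x₀.2.2
    exact h4.prodMk h5
  have h1' : HasFDerivAt (𝕜 := ℝ) (fun z : ℂ × ℂ => κ z.1 z.2)
      ((fderiv ℂ (fun z : ℂ × ℂ => κ z.1 z.2) (Pi3 s x₀)).restrictScalars ℝ) (Pi3 s x₀) :=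
    h1.restrictScalars ℝ
  exact h1'.comp_hasDerivAt s h2

end

end Pool.Agent.Helper30.FT
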